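import Pool.Agent.H61.NVK.TargetsE3

/-!
# The derivatives along lines
-/

set_option autoImplicit false

open MeasureTheory Set Filter NumberField NumberField.InfinitePlace Pool.Agent.H65.CM4
  Pool.Agent.H61.CM4 Pool.Agent.H61.NVK
open scoped Real nonZeroDivisors

namespace Pool.Agent.H27.NVE_DER

theorem iter_zero (m : ℕ) (s : ℝ) : iteratedDeriv m (fun _ : ℝ => (0 : ℝ)) s = 0 := by
  rw [iteratedDeriv_const]
  split_ifs <;> rfl

theorem nn1 {a b Y : ℝ} (ha : 0 ≤ a) (hb : 0 ≤ b) (hY : 1 ≤ Y) (j : ℕ) : 0 ≤ (a + b + Y) ^ j := by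
  have : 0 ≤ a + b + Y := by linarith
  positivity

theorem nn2 {x Y n : ℝ} (hx : 0 < x) (hY : 1 ≤ Y) (B : ℕ) :
    0 ≤ (1 + x / Y ^ (n / 2)) ^ (-(B : ℝ)) := by
  have h1 : 0 < Y := by linarith
  have h2 : 0 < Y ^ (n / 2) := Real.rpow_pos_of_pos h1 _
  have h3 : 0 ≤ 1 + x / Y ^ (n / 2) := by positivity
  exact Real.rpow_nonneg h3 _

theorem pf_DER (hHOZ : T_HOZ) (hHOV : T_HOV) (hLND : T_LND) (hLIX : T_LIX) : T_DER := by
  intro k _ _ _ G η hη hG hG0
  rcases le_or_gt η 1 with h1 | h1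
  · obtain ⟨ρ₁, C₁, j, hρ₁, hC₁, hZ⟩ := hHOZ k η hη h1
    obtain ⟨ρ₂, hρ₂, hV⟩ := hHOV k η hη h1
    refine ⟨j, ?_⟩
    intro m B
    obtain ⟨C₂, hC₂, hV⟩ := hV B
    have hρ : 0 < min ρ₁ ρ₂ := lt_min hρ₁ hρ₂
    obtain ⟨C₃, hC₃, hL⟩ := hLND (Pl k) G η (min ρ₁ ρ₂) hη hρ hG hG0 m
    refine ⟨C₃ * C₁ * (1 + C₂), by positivity, ?_⟩
    intro A f b p e Y x hY hx he
    have hA0 : 0 ≤ nm (A : Ideal (𝓞 k)) := Nat.cast_nonneg _
    have hf0 : 0 ≤ nm (f : Ideal (𝓞 k)) := Nat.cast_nonneg _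
    have hN0 : 0 ≤ (nm (A : Ideal (𝓞 k)) + nm (f : Ideal (𝓞 k)) + Y) ^ j := nn1 hA0 hf0 hY j
    have hW0 : 0 ≤ (1 + x / Y ^ ((dg k : ℝ) / 2)) ^ (-(B : ℝ)) := nn2 hx hY B
    constructor
    · obtain ⟨h2, h3⟩ := hL (fun u => zf (A : Ideal (𝓞 k)) f b (fun v => Y * u v))
        (C₁ * (nm (A : Ideal (𝓞 k)) + nm (f : Ideal (𝓞 k)) + Y) ^ j) (by positivity) (by
          intro p' e' hp' he'
          obtain ⟨F, hF1, hF2, hF3⟩ := hZ A f b p' e' Y hY hp' he'
          refine ⟨F, hF1.mono (Metric.ball_subset_ball (min_le_left _ _)), ?_, ?_⟩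
          · intro s hs
            exact hF2 s (lt_of_lt_of_le hs (min_le_left _ _))
          · intro s hs
            exact hF3 s (Metric.ball_subset_ball (min_le_left _ _) hs)) p e he
      refine ⟨h2, fun s => (h3 s).trans ?_⟩
      have h4 : 0 ≤ C₃ * C₁ * C₂ * (nm (A : Ideal (𝓞 k)) + nm (f : Ideal (𝓞 k)) + Y) ^ j := by
        positivity
      linarith
    · obtain ⟨h2, h3⟩ := hL (fun u => Vk k (x / sD (fun v => Y * u v)) *
          zf (A : Ideal (𝓞 k)) f b (fun v => Y * u v))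
        ((C₂ * (1 + x / Y ^ ((dg k : ℝ) / 2)) ^ (-(B : ℝ))) *
          (C₁ * (nm (A : Ideal (𝓞 k)) + nm (f : Ideal (𝓞 k)) + Y) ^ j)) (by positivity) (by
          intro p' e' hp' he'
          obtain ⟨F, hF1, hF2, hF3⟩ := hZ A f b p' e' Y hY hp' he'
          obtain ⟨F', hF1', hF2', hF3'⟩ := hV p' e' Y x hY hx hp' he'
          refine ⟨fun s => F' s * F s,
            (hF1'.mono (Metric.ball_subset_ball (min_le_right _ _))).mul
              (hF1.mono (Metric.ball_subset_ball (min_le_left _ _))), ?_, ?_⟩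
          · intro s hs
            change F' s * F s = _
            rw [hF2 s (lt_of_lt_of_le hs (min_le_left _ _)),
              hF2' s (lt_of_lt_of_le hs (min_le_right _ _))]
            exact (Complex.ofReal_mul _ _).symm
          · intro s hs
            rw [norm_mul]
            exact mul_le_mul (hF3' s (Metric.ball_subset_ball (min_le_right _ _) hs))
              (hF3 s (Metric.ball_subset_ball (min_le_left _ _) hs)) (norm_nonneg _)
              (by positivity)) p e he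
      refine ⟨h2, fun s => (h3 s).trans ?_⟩
      have h4 : 0 ≤ C₃ * C₁ * ((nm (A : Ideal (𝓞 k)) + nm (f : Ideal (𝓞 k)) + Y) ^ j *
        (1 + x / Y ^ ((dg k : ℝ) / 2)) ^ (-(B : ℝ))) := by
        positivity
      linarith
  · have hG' : ∀ u, G u = 0 := by
      intro u
      obtain ⟨v⟩ : Nonempty (Pl k) := inferInstance
      refine hG0 u ⟨v, ?_⟩
      rintro ⟨h2, h3⟩
      have h4 : 1 / η < 1 := by
        rw [div_lt_one hη]; exact h1
      linarith
    refine ⟨0, fun m B => ⟨1, one_pos, ?_⟩⟩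
    intro A f b p e Y x hY hx he
    have hW0 : 0 ≤ (1 + x / Y ^ ((dg k : ℝ) / 2)) ^ (-(B : ℝ)) := nn2 hx hY B
    have h5 : (fun s : ℝ => G (fun v => p v + s * e v) *
        zf (A : Ideal (𝓞 k)) f b (fun v => Y * (p v + s * e v))) = fun _ => 0 := by
      funext s; rw [hG', zero_mul]
    have h6 : (fun s : ℝ => G (fun v => p v + s * e v) *
        (Vk k (x / sD (fun v => Y * (p v + s * e v))) *
          zf (A : Ideal (𝓞 k)) f b (fun v => Y * (p v + s * e v)))) = fun _ => 0 := by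
      funext s; rw [hG', zero_mul]
    rw [h5, h6]
    refine ⟨⟨contDiff_const, fun s => ?_⟩, ⟨contDiff_const, fun s => ?_⟩⟩
    · rw [iter_zero, abs_zero, pow_zero]; norm_num
    · rw [iter_zero, abs_zero, pow_zero]; linarith

end Pool.Agent.H27.NVE_DER
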