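import Pool.Agent.H61.NVK.TargetsE2

/-!
# The central value in terms of theta functions
-/

set_option autoImplicit false

open MeasureTheory Set Filter NumberField NumberField.InfinitePlace Pool.Agent.H65.CM4
  Pool.Agent.H61.CM4 Pool.Agent.H61.NVK
open scoped Real nonZeroDivisors

namespace Pool.Agent.H27.NVE_ZTH

/-- entire functions which are equal for `Re s > 1` are equal -/
theorem ident (f g : ℂ → ℂ) (hf : Differentiable ℂ f) (hg : Differentiable ℂ g)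
    (h : ∀ s : ℂ, 1 < s.re → f s = g s) : f = g := by
  have h1 : AnalyticOnNhd ℂ f Set.univ := hf.differentiableOn.analyticOnNhd isOpen_univ
  have h2 : AnalyticOnNhd ℂ g Set.univ := hg.differentiableOn.analyticOnNhd isOpen_univ
  have h3 : f =ᶠ[nhds (2 : ℂ)] g := by
    have ho : IsOpen {s : ℂ | 1 < s.re} := isOpen_lt continuous_const Complex.continuous_re
    have hm : (2 : ℂ) ∈ {s : ℂ | 1 < s.re} := by
      change 1 < (2 : ℂ).re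
      norm_num
    exact Filter.eventually_of_mem (ho.mem_nhds hm) fun s hs => h s hs
  funext s
  exact h1.eqOn_of_preconnected_of_eventuallyEq h2 isPreconnected_univ (Set.mem_univ _) h3
    (Set.mem_univ s)

theorem pf_ZTH (hIXD : T_IXD) (hPHI : T_PHI) (hPSI : T_PSI) (hPSH : T_PSH) (hLAM : T_LAM)
    (hLIX : T_LIX) (hKRE : T_KRE) : T_ZTH := by
  classical
  intro k _ _ _ B x y hy
  obtain ⟨hdk, -⟩ := hIXD k
  obtain ⟨Ψ, hΨ1, hΨ2, hΨ3, hΨ4⟩ := hPSI k B x y hy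
  have hhalf := hPSH k B x y Ψ hy hΨ1 hΨ2 hΨ3 hΨ4
  have hix : ∀ c : ClassGroup (𝓞 k), ix (Lb (ci c) (B : Ideal (𝓞 k))) ≠ 0 := fun c =>
    (hLIX k (cr c) B).2.1
  have hP := fun c : ClassGroup (𝓞 k) => hPHI k (Lb (ci c) (B : Ideal (𝓞 k))) x y (hix c) hy
  choose Φ hΦ1 hΦ2 _ _ using hP
  have hΦ3 : ∀ c, Φ c (1 / 2) = gG (1 / 2) ^ dg k * (((2 : ℝ) ^ (3 * (dg k : ℝ) / 2 - 1) *
      (Real.sqrt (ix (Lb (ci c) (B : Ideal (𝓞 k)))) *
        Lam (Lb (ci c) (B : Ideal (𝓞 k))) x y) : ℝ) : ℂ) := fun c =>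
    (hLAM k (Lb (ci c) (B : Ideal (𝓞 k))) x y (hix c) hy).2.2 (Φ c) (hΦ1 c) (hΦ2 c)
  have hdk0 : (dk k : ℂ) ≠ 0 := by
    exact_mod_cast hdk.ne'
  have hd : Differentiable ℂ (fun s : ℂ => (dk k : ℂ) ^ s * ∑ c : ClassGroup (𝓞 k), Φ c s) := by
    refine Differentiable.mul ?_ ?_
    · intro s
      exact (differentiableAt_id.const_cpow (Or.inl hdk0))
    · exact Differentiable.fun_sum fun c _ => hΦ1 c
  have heq : Ψ = fun s : ℂ => (dk k : ℂ) ^ s * ∑ c : ClassGroup (𝓞 k), Φ c s := by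
    refine ident _ _ hΨ1 hd ?_
    intro s hs
    rw [hΨ4 s hs, mul_comm (gG s ^ dg k), mul_assoc, Finset.mul_sum]
    congr 1
    exact Finset.sum_congr rfl fun c _ => (hΦ2 c s hs).symm
  rw [heq] at hhalf
  have h1 : (dk k : ℂ) ^ (1 / 2 : ℂ) * ∑ c : ClassGroup (𝓞 k), Φ c (1 / 2) =
      gG (1 / 2) ^ dg k * (dk k : ℂ) ^ (1 / 2 : ℂ) *
        ((ze (B : Ideal (𝓞 k)) x y : ℝ) : ℂ) := hhalf
  have h2 : (dk k : ℂ) ^ (1 / 2 : ℂ) ≠ 0 := by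
    rw [Ne, Complex.cpow_eq_zero_iff]
    rintro ⟨h, -⟩
    exact hdk0 h
  have h3 : gG (1 / 2) ^ dg k ≠ 0 := by
    apply pow_ne_zero
    rw [hKRE.1]
    have h4 : (-(1 / (4 * Real.sqrt 2)) : ℝ) ≠ 0 := by
      have : 0 < Real.sqrt 2 := Real.sqrt_pos.mpr (by norm_num)
      have h5 : 0 < 1 / (4 * Real.sqrt 2) := by positivity
      linarith
    exact_mod_cast h4
  have h5 : ∑ c : ClassGroup (𝓞 k), Φ c (1 / 2) = gG (1 / 2) ^ dg k *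
      (((2 : ℝ) ^ (3 * (dg k : ℝ) / 2 - 1) * ∑ c : ClassGroup (𝓞 k),
        Real.sqrt (ix (Lb (ci c) (B : Ideal (𝓞 k)))) * Lam (Lb (ci c) B) x y : ℝ) : ℂ) := by
    rw [Finset.mul_sum, Complex.ofReal_sum, Finset.mul_sum]
    exact Finset.sum_congr rfl fun c _ => hΦ3 c
  rw [h5] at h1
  have h6 : (dk k : ℂ) ^ (1 / 2 : ℂ) * gG (1 / 2) ^ dg k *
      ((ze (B : Ideal (𝓞 k)) x y : ℝ) : ℂ) = (dk k : ℂ) ^ (1 / 2 : ℂ) * gG (1 / 2) ^ dg k *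
      (((2 : ℝ) ^ (3 * (dg k : ℝ) / 2 - 1) * ∑ c : ClassGroup (𝓞 k),
        Real.sqrt (ix (Lb (ci c) (B : Ideal (𝓞 k)))) * Lam (Lb (ci c) B) x y : ℝ) : ℂ) := by
    rw [mul_comm ((dk k : ℂ) ^ (1 / 2 : ℂ)) (gG (1 / 2) ^ dg k), ← h1, ← mul_assoc,
      mul_comm ((dk k : ℂ) ^ (1 / 2 : ℂ)) (gG (1 / 2) ^ dg k)]
  have h7 := mul_left_cancel₀ (mul_ne_zero h2 h3) h6
  exact_mod_cast h7

end Pool.Agent.H27.NVE_ZTH
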